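import Mathlib
import Pool.Agent.H.MP_12cd8a_lc.A

namespace Pool.Agent.H.MP_e9e8de_lc
open Set Filter Topology MeasureTheory

def pre (x : ℕ → ℕ) : ℕ → List ℕ
  | 0 => []
  | k + 1 => x k :: pre x k

lemma pre_len (x : ℕ → ℕ) (k : ℕ) : (pre x k).length = k := by
  induction k with
  | zero => rfl
  | succ k ih => simp [pre, ih]

lemma pre_congr {x y : ℕ → ℕ} {k : ℕ} (h : ∀ i < k, x i = y i) : pre x k = pre y k := by
  induction k with
  | zero => rfl
  | succ k ih => rw [pre, pre, h k (by omega), ih fun i hi => h i (by omega)]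

lemma pre_inj {x y : ℕ → ℕ} {k : ℕ} (h : pre x k = pre y k) : ∀ i < k, x i = y i := by
  induction k with
  | zero => intro i hi; omega
  | succ k ih =>
    intro i hi
    simp only [pre, List.cons.injEq] at h
    rcases Nat.lt_succ_iff_lt_or_eq.1 hi with h2 | rfl
    exacts [ih h.2 i h2, h.1]

def IF (T : List ℕ → Bool) : Prop := ∃ x : ℕ → ℕ, ∀ k, T (pre x (k + 1)) = true

theorem wf_not_analytic : ¬ AnalyticSet {T | ¬ IF T} := by
  classical
  rw [AnalyticSet]
  rintro (h | ⟨g, g1, g2⟩)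
  · have : (fun _ => false) ∈ {T | ¬ IF T} := by rintro ⟨x, hx⟩; simpa using hx 0
    rw [h] at this; exact this
  let T : List ℕ → Bool := fun s => decide (∃ c, s = pre c s.length ∧ ∃ x : ℕ → ℕ,
    (∀ i < s.length, x i = (Nat.unpair (c i)).1) ∧
    ∀ j < s.length, j ≠ 0 → g x (pre (fun i => (Nat.unpair (c (i + 1))).2) j) = true)
  have hT : T ∈ range g := by
    rw [g2]
    rintro ⟨c, hc⟩
    simp only [T, decide_eq_true_eq, pre_len] at hc
    choose d d1 x x1 x2 using hc
    have h1 : Tendsto x atTop (𝓝 fun i => (Nat.unpair (c i)).1) :=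
      tendsto_pi_nhds.2 fun i => tendsto_nhds_of_eventually_eq ((eventually_ge_atTop i).mono
        fun k hk => by rw [x1 k i (by omega), pre_inj (d1 k) i (by omega)])
    have h2 : g (fun i => (Nat.unpair (c i)).1) ∈ {T | ¬ IF T} := g2 ▸ mem_range_self _
    refine h2 ⟨fun i => (Nat.unpair (c (i + 1))).2, fun j => ?_⟩
    have h3 := tendsto_pi_nhds.1 ((g1.tendsto _).comp h1) (pre (fun i => (Nat.unpair (c (i + 1))).2) (j + 1))
    refine tendsto_nhds_unique h3 (tendsto_nhds_of_eventually_eq ((eventually_ge_atTop (j + 1)).mono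
      fun k hk => ?_))
    rw [← x2 k (j + 1) (by omega) (by omega)]
    exact congrArg _ (pre_congr fun i hi => by rw [pre_inj (d1 k) (i + 1) (by omega)])
  obtain ⟨x, hx⟩ := hT
  have h2 : g x ∈ {T | ¬ IF T} := g2 ▸ mem_range_self _
  let c : ℕ → ℕ := fun n => Nat.rec (Nat.pair (x 0) 0) (fun i ci => Nat.pair (x (i + 1)) ci) n
  have h3 : ∀ k j, j ≤ k → j ≠ 0 → g x (pre c j) = true := by
    intro k
    induction k with
    | zero => intro j a b; omega
    | succ k ih =>
      intro j a b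
      rw [hx]
      simp only [T, decide_eq_true_eq, pre_len]
      refine ⟨c, rfl, x, fun i _ => by cases i <;> simp [c], fun i h4 h5 => ?_⟩
      rw [← ih i (by omega) h5]
      exact congrArg _ (pre_congr fun i _ => by simp [c])
  exact h2 ⟨c, fun k => h3 _ _ le_rfl (by omega)⟩

def app : List ℕ → List ℕ → List ℕ
  | s, [] => s
  | s, i :: u => app (i :: s) u

def ok (T : List ℕ → Bool) : List ℕ → List ℕ → Prop
  | _, [] => True
  | s, i :: u => T (i :: s) = true ∧ ok T (i :: s) u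

lemma ok_snoc (T : List ℕ → Bool) (i : ℕ) (u : List ℕ) : ∀ s, ok T s u → T (i :: app s u) = true →
    ok T s (u ++ [i]) ∧ app s (u ++ [i]) = i :: app s u := by
  induction u with
  | nil => intro s _ h; exact ⟨⟨h, trivial⟩, rfl⟩
  | cons j u ih => intro s h1 h2; exact ⟨⟨h1.1, (ih _ h1.2 h2).1⟩, (ih _ h1.2 h2).2⟩

lemma ok_meas (u : List ℕ) : ∀ s, Measurable fun T : List ℕ → Bool => ok T s u := by
  induction u with
  | nil => intro s; exact measurable_const
  | cons j u ih => intro s; exact ((measurable_pi_apply (j :: s)).eq_const true).and (ih _)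

def Small {Z : Type} [TopologicalSpace Z] (A S : Set Z) : Prop :=
  ∃ C : Set (Set Z), C.Countable ∧ (∀ c ∈ C, IsClosed c ∧ c ⊆ A) ∧ S ⊆ ⋃₀ C

theorem hur {Y Z : Type} [MetricSpace Y] [CompleteSpace Y] [SecondCountableTopology Y]
    [MetricSpace Z] (f : Y → Z) (hf : Continuous f) (hA : ¬ Small (range f) (range f)) :
    ∃ h : List ℕ → Z, (∀ s, h s ∉ range f) ∧
      (∀ x, ∃ a ∈ range f, Tendsto (fun k => h (pre x k)) atTop (𝓝 a)) ∧
      ∀ T, ¬ IF T → IsClosed {z | ∃ u, ok T [] u ∧ z = h (app [] u)} := by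
  set P : Set Y := {y | ∀ V, IsOpen V → y ∈ V → ¬ Small (range f) (f '' V)}
  have h1 : Small (range f) (f '' Pᶜ) := by
    obtain ⟨W, w1, w2, w3⟩ := TopologicalSpace.isOpen_sUnion_countable
      {V | IsOpen V ∧ Small (range f) (f '' V)} (fun _ h => h.1)
    choose C c1 c2 c3 using fun V : W => (w2 V.2).2
    haveI := w1.to_subtype
    refine ⟨⋃ V, C V, countable_iUnion c1, fun c hc => ?_, ?_⟩
    · obtain ⟨V, hV⟩ := mem_iUnion.1 hc; exact c2 V c hV
    · rintro _ ⟨y, hy, rfl⟩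
      have : y ∈ ⋃₀ W := by
        rw [w3]
        by_contra h
        exact hy fun V a b c => h ⟨V, ⟨a, c⟩, b⟩
      obtain ⟨V, a, b⟩ := this
      obtain ⟨c, d, e⟩ := c3 ⟨V, a⟩ ⟨y, b, rfl⟩
      exact ⟨c, mem_iUnion.2 ⟨_, d⟩, e⟩
  have h2 : ∀ V : {V : Set Y // IsOpen V ∧ (V ∩ P).Nonempty},
      ∃ z ∈ closure (f '' (V.1 ∩ P)), z ∉ range f := by
    rintro ⟨V, v1, y, v2, v3⟩
    by_contra h
    push Not at h
    obtain ⟨C, c1, c2, c3⟩ := h1
    refine v3 V v1 v2 ⟨insert (closure (f '' (V ∩ P))) C, c1.insert _, ?_, ?_⟩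
    · rintro c (rfl | hc)
      exacts [⟨isClosed_closure, h⟩, c2 c hc]
    · rintro _ ⟨w, hw, rfl⟩
      rw [sUnion_insert]
      by_cases h3 : w ∈ P
      exacts [Or.inl (subset_closure ⟨w, ⟨hw, h3⟩, rfl⟩), Or.inr (c3 ⟨w, h3, rfl⟩)]
  choose hp p1 p2 using h2
  have h3 : ∀ (V : {V : Set Y // IsOpen V ∧ (V ∩ P).Nonempty}) (n : ℕ),
      ∃ W : {V : Set Y // IsOpen V ∧ (V ∩ P).Nonempty}, W.1 ⊆ V.1 ∧
        (∃ y, W.1 ⊆ Metric.ball y (1 / ((n : ℝ) + 1))) ∧
        f '' W.1 ⊆ Metric.ball (hp V) (1 / ((n : ℝ) + 1)) := by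
    intro V n
    have hn : 0 < 1 / ((n : ℝ) + 1) := by positivity
    obtain ⟨_, ⟨y, hy, rfl⟩, h4⟩ := Metric.mem_closure_iff.1 (p1 V) _ hn
    refine ⟨⟨V.1 ∩ Metric.ball y (1 / ((n : ℝ) + 1)) ∩ f ⁻¹' Metric.ball (hp V) (1 / ((n : ℝ) + 1)),
      (V.2.1.inter Metric.isOpen_ball).inter (Metric.isOpen_ball.preimage hf), y,
      ⟨⟨hy.1, Metric.mem_ball_self hn⟩, Metric.mem_ball'.2 h4⟩, hy.2⟩, fun _ h => h.1.1,
      ⟨y, fun _ h => h.1.2⟩, ?_⟩
    rintro _ ⟨w, hw, rfl⟩; exact hw.2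
  choose nx n1 n2 n3 using h3
  have h0 : (univ ∩ P).Nonempty := by
    rw [univ_inter, nonempty_iff_ne_empty]
    intro h
    rw [h, compl_empty, image_univ] at h1
    exact hA h1
  let V : List ℕ → {V : Set Y // IsOpen V ∧ (V ∩ P).Nonempty} := fun s =>
    List.rec ⟨univ, isOpen_univ, h0⟩ (fun i t W => nx W (i + t.length)) s
  have hV : ∀ i s, V (i :: s) = nx (V s) (i + s.length) := fun _ _ => rfl
  refine ⟨fun s => hp (V s), fun s => p2 _, fun x => ?_, fun T hT => ?_⟩
  · choose y y1 y2 using fun k => (V (pre x (k + 1))).2.2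
    have a1 : ∀ k j, k ≤ j → (V (pre x j)).1 ⊆ (V (pre x k)).1 := by
      intro k j h
      induction h with
      | refl => exact subset_rfl
      | step _ ih => exact (n1 _ _).trans ih
    have a2 : ∀ k : ℕ, 1 / (((x k + (pre x k).length : ℕ) : ℝ) + 1) ≤ 1 / ((k : ℝ) + 1) := by
      intro k
      rw [pre_len]
      exact Nat.one_div_le_one_div (by omega)
    have a3 : CauchySeq y := by
      refine cauchySeq_of_le_tendsto_0' (fun k : ℕ => 1 / ((k : ℝ) + 1) + 1 / ((k : ℝ) + 1))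
        (fun k j h => ?_) (by simpa using (tendsto_one_div_add_atTop_nhds_zero_nat (𝕜 := ℝ)).add tendsto_one_div_add_atTop_nhds_zero_nat)
      obtain ⟨c, hc⟩ := n2 (V (pre x k)) (x k + (pre x k).length)
      have b1 := Metric.mem_ball.1 (hc (y1 k))
      have b2 := Metric.mem_ball.1 (hc (a1 (k + 1) (j + 1) (by omega) (y1 j)))
      have := dist_triangle_right (y k) (y j) c
      have := a2 k
      linarith
    obtain ⟨w, hw⟩ := cauchySeq_tendsto_of_complete a3
    refine ⟨f w, mem_range_self _, ((hf.tendsto w).comp hw).congr_dist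
      (squeeze_zero (fun _ => dist_nonneg) (fun k => ?_) tendsto_one_div_add_atTop_nhds_zero_nat)⟩
    exact (Metric.mem_ball.1 (n3 (V (pre x k)) (x k + (pre x k).length) ⟨_, y1 k, rfl⟩)).le.trans (a2 k)
  · have a1 : ∀ u s, (V (app s u)).1 ⊆ (V s).1 := by
      intro u
      induction u with
      | nil => intro s; exact subset_rfl
      | cons i u ih => intro s; exact (ih _).trans (n1 _ _)
    have a2 : ∀ s, ¬ IsClosed {z | ∃ u, ok T s u ∧ z = hp (V (app s u))} →
        ∃ i, T (i :: s) = true ∧ ¬ IsClosed {z | ∃ u, ok T (i :: s) u ∧ z = hp (V (app (i :: s) u))} := by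
      intro s hs
      by_contra h
      push Not at h
      apply hs
      have := Pool.Agent.H.MP_12cd8a_lc.cl (x := hp (V s)) (ε := 2) (S := fun i =>
        {z | T (i :: s) = true ∧ ∃ u, ok T (i :: s) u ∧ z = hp (V (app (i :: s) u))})
        (fun i => IsClosed.union (by
          by_cases h4 : T (i :: s) = true
          · simpa [h4] using h i h4
          · simp [h4]) isClosed_singleton) (by
          rintro i _ ⟨-, u, -, rfl⟩
          have b1 := closure_mono ((image_mono (inter_subset_left.trans (a1 u (i :: s)))).trans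
            (n3 (V s) (i + s.length))) (p1 (V (app (i :: s) u)))
          refine Metric.closedBall_subset_ball ?_ (Metric.closure_ball_subset_closedBall b1)
          refine lt_of_le_of_lt (Nat.one_div_le_one_div (Nat.le_add_right i _)) ?_
          exact div_lt_div_of_pos_right one_lt_two (by positivity))
      convert this using 1
      ext z
      simp only [mem_union, mem_iUnion, Set.mem_ofPred_eq, mem_singleton_iff]
      constructor
      · rintro ⟨u, u1, u2⟩
        cases u with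
        | nil => exact Or.inr u2
        | cons i u => exact Or.inl ⟨i, u1.1, u, u1.2, u2⟩
      · rintro (⟨i, b, u, u1, u2⟩ | b)
        exacts [⟨i :: u, ⟨b, u1⟩, u2⟩, ⟨[], trivial, b⟩]
    choose! g g1 g2 using a2
    by_contra hc
    let l : ℕ → List ℕ := fun n => Nat.rec [] (fun _ s => g s :: s) n
    have a3 : ∀ k, ¬ IsClosed {z | ∃ u, ok T (l k) u ∧ z = hp (V (app (l k) u))} := by
      intro k
      induction k with
      | zero => exact hc
      | succ k ih => exact g2 _ ih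
    have a4 : ∀ k, pre (fun n => g (l n)) k = l k := by
      intro k
      induction k with
      | zero => rfl
      | succ k ih => rw [pre, ih]
    exact hT ⟨fun n => g (l n), fun k => by rw [a4]; exact g1 _ (a3 k)⟩

lemma pol (ι : Type) [Countable ι] : PolishSpace (ι → Bool) := ⟨⟩

variable {X : Type} [TopologicalSpace X] {U : ℕ → Set X}

lemma meas (hB : MeasurableSet {p : (ℕ → ℕ) × (ℕ → ℕ) | ⋃ n, U (p.1 n) = ⋃ n, U (p.2 n)})
    {T : Type} [MeasurableSpace T] (b : T → ℕ → Prop) (hb : ∀ k, Measurable fun t => b t k) (n : ℕ) :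
    MeasurableSet {t | ∀ p ∈ U n, ∃ m, b t m ∧ p ∈ U m} := by
  classical
  have h1 : ∀ m k, Measurable fun t => if b t k then k else m := fun m k =>
    Measurable.ite (measurableSet_setOf.2 (hb k)) measurable_const measurable_const
  have : {t | ∀ p ∈ U n, ∃ m, b t m ∧ p ∈ U m} = {t | U n = ∅} ∪ ⋃ m, {t | b t m} ∩
      (fun t => ((fun k => Nat.casesOn k n fun k => if b t k then k else m : ℕ → ℕ),
        (fun k => if b t k then k else m : ℕ → ℕ))) ⁻¹'
      {p : (ℕ → ℕ) × (ℕ → ℕ) | ⋃ n, U (p.1 n) = ⋃ n, U (p.2 n)} := by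
    ext t
    simp only [mem_union, mem_iUnion, mem_inter_iff, mem_preimage, Set.mem_ofPred_eq]
    constructor
    · intro h
      rcases (U n).eq_empty_or_nonempty with h2 | ⟨p, hp⟩
      · exact Or.inl h2
      obtain ⟨m, h3, -⟩ := h p hp
      refine Or.inr ⟨m, h3, Subset.antisymm (iUnion_subset fun k => ?_)
        (iUnion_subset fun k => subset_iUnion_of_subset (k + 1) subset_rfl)⟩
      cases k with
      | zero =>
        intro q hq
        obtain ⟨j, a, c⟩ := h q hq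
        exact mem_iUnion.2 ⟨j, by rwa [if_pos a]⟩
      | succ k => exact subset_iUnion_of_subset k subset_rfl
    · rintro (h | ⟨m, h1, h2⟩) p hp
      · rw [h] at hp; exact absurd hp (notMem_empty p)
      · obtain ⟨k, hk⟩ := mem_iUnion.1 (h2.subset (mem_iUnion.2 ⟨0, hp⟩))
        split_ifs at hk with h3
        exacts [⟨k, h3, hk⟩, ⟨m, h1, hk⟩]
  rw [this]
  refine (MeasurableSet.const _).union (MeasurableSet.iUnion fun m =>
    (measurableSet_setOf.2 (hb m)).inter (Measurable.prodMk (measurable_pi_lambda _ fun k => ?_)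
      (measurable_pi_lambda _ (h1 m)) hB))
  cases k with
  | zero => exact measurable_const
  | succ k => exact h1 m k

lemma fsig (hU : TopologicalSpace.IsTopologicalBasis (range U))
    (hB : MeasurableSet {p : (ℕ → ℕ) × (ℕ → ℕ) | ⋃ n, U (p.1 n) = ⋃ n, U (p.2 n)}) (n : ℕ) :
    Small {a : ℕ → Bool | ∃ p ∈ U n, ∀ m, p ∈ U m → a m = true}
      {a : ℕ → Bool | ∃ p ∈ U n, ∀ m, p ∈ U m → a m = true} := by
  haveI := pol ℕ
  haveI := pol (List ℕ)
  have h1 : AnalyticSet {a : ℕ → Bool | ∃ p ∈ U n, ∀ m, p ∈ U m → a m = true} := by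
    have := (meas hB (fun (a : ℕ → Bool) m => a m = false)
      (fun k => (measurable_pi_apply (X := fun _ : ℕ => Bool) k).eq_const false) n).compl.analyticSet
    convert this using 1
    ext a
    simp only [mem_compl_iff, Set.mem_ofPred_eq, not_forall, not_exists, not_and, exists_prop]
    refine exists_congr fun p => and_congr_right fun _ => forall_congr' fun m => ?_
    cases a m <;> simp
  rw [AnalyticSet] at h1
  rcases h1 with h1 | ⟨f, f1, f2⟩
  · rw [h1]; exact ⟨∅, countable_empty, by simp, by simp⟩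
  by_contra hA
  rw [← f2] at hA
  letI := TopologicalSpace.metrizableSpaceMetric (ℕ → Bool)
  letI := TopologicalSpace.upgradeIsCompletelyMetrizable (ℕ → ℕ)
  obtain ⟨h, h1, h2, h3⟩ := hur f f1 hA
  rw [f2] at h1 h2
  refine wf_not_analytic (MeasurableSet.analyticSet ?_)
  have := meas hB (fun (T : List ℕ → Bool) j => ∃ F : Finset ℕ, (∀ m ∈ F, U j ⊆ U m) ∧
    ∀ u, ok T [] u → ∃ m ∈ F, h (app [] u) m = false) (fun j => Measurable.exists fun F =>
      measurable_const.and (Measurable.forall fun u => (ok_meas u []).imp measurable_const)) n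
  convert this using 1
  ext T
  simp only [Set.mem_ofPred_eq]
  constructor
  · intro hT p hp
    obtain ⟨F, hF⟩ := (h3 T hT).isCompact.elim_finite_subcover
      (fun m : {m // p ∈ U m} => {a : ℕ → Bool | a m = false})
      (fun m => (isOpen_discrete {false}).preimage (continuous_apply (A := fun _ : ℕ => Bool) m.1)) (by
        rintro _ ⟨u, -, rfl⟩
        by_contra h4
        refine h1 (app [] u) ⟨p, hp, fun m hm => ?_⟩
        by_contra h5
        exact h4 (mem_iUnion.2 ⟨⟨m, hm⟩, by simpa using h5⟩))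
    obtain ⟨_, ⟨j, rfl⟩, h4, h5⟩ := hU.exists_subset_of_mem_open (a := p) (u := ⋂ m ∈ F, U m.1)
      (mem_iInter₂.2 fun m _ => m.2) (isOpen_biInter_finset fun m _ => hU.isOpen ⟨_, rfl⟩)
    refine ⟨j, ⟨F.image (·.1), fun m hm => ?_, fun u hu => ?_⟩, h4⟩
    · obtain ⟨k, hk, rfl⟩ := Finset.mem_image.1 hm
      exact h5.trans (biInter_subset_of_mem hk)
    · obtain ⟨m, h6, h7⟩ := mem_iUnion₂.1 (hF ⟨u, hu, rfl⟩)
      exact ⟨m, Finset.mem_image_of_mem _ h6, h7⟩
  · rintro h4 ⟨x, hx⟩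
    obtain ⟨a, ⟨p, hp, a1⟩, a2⟩ := h2 x
    obtain ⟨j, ⟨F, b1, b2⟩, b3⟩ := h4 p hp
    have b4 : ∀ k, ∃ u, ok T [] u ∧ app [] u = pre x k := by
      intro k
      induction k with
      | zero => exact ⟨[], trivial, rfl⟩
      | succ k ih =>
        obtain ⟨u, u1, u2⟩ := ih
        have := ok_snoc T (x k) u [] u1 (by rw [u2]; exact hx k)
        exact ⟨_, this.1, by rw [this.2, u2]; rfl⟩
    have b5 : ∀ᶠ k in atTop, ∀ m ∈ F, h (pre x k) m = a m :=
      (eventually_all_finset F).2 fun m _ =>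
        (tendsto_pi_nhds.1 a2 m).eventually ((isOpen_discrete {a m}).mem_nhds rfl)
    obtain ⟨k, hk⟩ := b5.exists
    obtain ⟨u, u1, u2⟩ := b4 k
    obtain ⟨m, m1, m2⟩ := b2 u u1
    rw [u2, hk m m1, a1 m (b1 m m1 b3)] at m2
    exact absurd m2 (by simp)

lemma gd (hU : TopologicalSpace.IsTopologicalBasis (range U))
    (hB : MeasurableSet {p : (ℕ → ℕ) × (ℕ → ℕ) | ⋃ n, U (p.1 n) = ⋃ n, U (p.2 n)}) :
    IsGδ {p : (ℕ → ℕ) × (ℕ → ℕ) | ⋃ n, U (p.1 n) ⊆ ⋃ n, U (p.2 n)} := by
  classical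
  have h1 : ∀ n, IsGδ {y : ℕ → ℕ | U n ⊆ ⋃ i, U (y i)} := by
    intro n
    obtain ⟨C, c1, c2, c3⟩ := fsig hU hB n
    have : {y : ℕ → ℕ | U n ⊆ ⋃ i, U (y i)} = ⋂ c ∈ C, {y | ∀ a ∈ c, ∃ i, a (y i) = true} := by
      ext y
      simp only [mem_iInter, Set.mem_ofPred_eq]
      constructor
      · intro h c hc a ha
        obtain ⟨p, hp, h2⟩ := (c2 c hc).2 ha
        obtain ⟨i, hi⟩ := mem_iUnion.1 (h hp)
        exact ⟨i, h2 _ hi⟩
      · intro h p hp
        obtain ⟨c, hc, h2⟩ := c3 (show (fun m => decide (p ∈ U m)) ∈ _ from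
          ⟨p, hp, fun m hm => by simpa using hm⟩)
        obtain ⟨i, hi⟩ := h c hc _ h2
        exact mem_iUnion.2 ⟨i, by simpa using hi⟩
    rw [this]
    refine IsGδ.biInter_of_isOpen c1 fun c hc => isOpen_iff_mem_nhds.2 fun y hy => ?_
    obtain ⟨F, hF⟩ := (c2 c hc).1.isCompact.elim_finite_subcover
      (fun i : ℕ => {a : ℕ → Bool | a (y i) = true})
      (fun i => (isOpen_discrete {true}).preimage (continuous_apply (A := fun _ : ℕ => Bool) (y i)))
      (fun a ha => mem_iUnion.2 (hy a ha))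
    have h2 : ∀ᶠ z : ℕ → ℕ in 𝓝 y, ∀ i ∈ F, z i = y i := (eventually_all_finset F).2 fun i _ =>
      (continuous_apply i).continuousAt.eventually ((isOpen_discrete {y i}).mem_nhds rfl)
    filter_upwards [h2] with z hz a ha
    obtain ⟨i, a1, a2⟩ := mem_iUnion₂.1 (hF ha)
    exact ⟨i, by rw [hz i a1]; exact a2⟩
  have : {p : (ℕ → ℕ) × (ℕ → ℕ) | ⋃ n, U (p.1 n) ⊆ ⋃ n, U (p.2 n)} = ⋂ i, ⋂ n,
      ((fun p : (ℕ → ℕ) × (ℕ → ℕ) => p.1 i) ⁻¹' {n}ᶜ ∪ Prod.snd ⁻¹' {y : ℕ → ℕ | U n ⊆ ⋃ i, U (y i)}) := by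
    ext p
    simp only [mem_iInter, Set.mem_ofPred_eq, iUnion_subset_iff, mem_union, mem_preimage,
      mem_compl_iff, mem_singleton_iff]
    refine forall_congr' fun i => ⟨fun h n => ?_, fun h => (h _).resolve_left fun h => h rfl⟩
    by_cases h2 : p.1 i = n
    · exact Or.inr (h2 ▸ h)
    · exact Or.inl h2
  rw [this]
  exact IsGδ.iInter fun i => IsGδ.iInter fun n => (((isOpen_discrete _).preimage
    ((continuous_apply i).comp continuous_fst)).isGδ).union ((h1 n).preimage continuous_snd)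

theorem main (X : Type) [TopologicalSpace X] (U : ℕ → Set X)
    (hU : TopologicalSpace.IsTopologicalBasis (range U))
    (hB : @MeasurableSet _ (borel _) {p : (ℕ → ℕ) × (ℕ → ℕ) | ⋃ n, U (p.1 n) = ⋃ n, U (p.2 n)}) :
    IsGδ {p : (ℕ → ℕ) × (ℕ → ℕ) | ⋃ n, U (p.1 n) = ⋃ n, U (p.2 n)} := by
  rw [← BorelSpace.measurable_eq (α := (ℕ → ℕ) × (ℕ → ℕ))] at hB
  have h := gd hU hB
  convert h.inter (h.preimage continuous_swap) using 1
  ext p
  exact Subset.antisymm_iff

end Pool.Agent.H.MP_e9e8de_lc
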